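import Pool.Agent.Helper95.FC.Sieve

set_option autoImplicit false

/-!
# The sieve lemma
-/

namespace Pool.Agent.Helper95.FC

open Finset

/-- `∏ (1 - x q)`. -/
noncomputable def FF (x : ℕ → ℝ) (Q : List ℕ) : ℝ := (Q.map (fun q => 1 - x q)).prod

/-- `∑ x q`. -/
noncomputable def LL (x : ℕ → ℝ) (Q : List ℕ) : ℝ := (Q.map x).sum

theorem FF_nil (x : ℕ → ℝ) : FF x [] = 1 := by simp [FF]

theorem FF_cons (x : ℕ → ℝ) (q : ℕ) (Q : List ℕ) : FF x (q :: Q) = (1 - x q) * FF x Q := by
  simp [FF]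

theorem LL_nil (x : ℕ → ℝ) : LL x [] = 0 := by simp [LL]

theorem LL_cons (x : ℕ → ℝ) (q : ℕ) (Q : List ℕ) : LL x (q :: Q) = x q + LL x Q := by
  simp [LL]

theorem LL_nonneg (x : ℕ → ℝ) (hx : ∀ q, 0 ≤ x q) (Q : List ℕ) : 0 ≤ LL x Q := by
  induction Q with
  | nil => rw [LL_nil]
  | cons q Q ih => rw [LL_cons]; linarith [hx q]

theorem FF_bounds (x : ℕ → ℝ) (Q : List ℕ) (hx : ∀ q ∈ Q, 0 ≤ x q ∧ x q ≤ 1 / 2) :
    Real.exp (-(2 * LL x Q)) ≤ FF x Q ∧ FF x Q ≤ 1 ∧ 1 - LL x Q ≤ FF x Q := by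
  induction Q with
  | nil => simp [FF_nil, LL_nil]
  | cons q Q ih =>
    obtain ⟨h1, h2⟩ := hx q List.mem_cons_self
    obtain ⟨i1, i2, i3⟩ := ih fun q' h => hx q' (List.mem_cons_of_mem _ h)
    rw [FF_cons, LL_cons]
    have hp : 0 < FF x Q := (Real.exp_pos _).trans_le i1
    refine ⟨?_, ?_, ?_⟩
    · have h3 : Real.exp (-(2 * x q)) ≤ 1 - x q := by
        have h4 : 1 + 2 * x q ≤ Real.exp (2 * x q) := by
          have := Real.add_one_le_exp (2 * x q)
          linarith
        have h5 : 1 ≤ (1 - x q) * Real.exp (2 * x q) := by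
          have h6 : (1 - x q) * (1 + 2 * x q) ≤ (1 - x q) * Real.exp (2 * x q) :=
            mul_le_mul_of_nonneg_left h4 (by linarith)
          nlinarith
        rw [Real.exp_neg, inv_le_iff_one_le_mul₀ (Real.exp_pos _)]
        linarith
      have h4 : -(2 * (x q + LL x Q)) = -(2 * x q) + -(2 * LL x Q) := by ring
      rw [h4, Real.exp_add]
      exact mul_le_mul h3 i1 (Real.exp_pos _).le (by linarith)
    · nlinarith
    · nlinarith

/-- `x^(n+1) + (n+1) a x^n ≤ (x + a)^(n+1)`. -/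
theorem pow_add_le (a x : ℝ) (ha : 0 ≤ a) (hx : 0 ≤ x) (n : ℕ) :
    x ^ (n + 1) + (n + 1) * a * x ^ n ≤ (a + x) ^ (n + 1) := by
  induction n with
  | zero => simp; linarith
  | succ n ih =>
    have h1 : (a + x) ^ (n + 1 + 1) = (a + x) * (a + x) ^ (n + 1) := by ring
    rw [h1]
    have h2 : (a + x) * (x ^ (n + 1) + (n + 1) * a * x ^ n) ≤ (a + x) * (a + x) ^ (n + 1) :=
      mul_le_mul_of_nonneg_left ih (by linarith)
    refine le_trans ?_ h2
    push_cast
    have h3 : 0 ≤ (n + 1) * a ^ 2 * x ^ n := by positivity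
    have h4 : (a + x) * (x ^ (n + 1) + (n + 1) * a * x ^ n) =
        x ^ (n + 1 + 1) + (n + 1 + 1) * a * x ^ (n + 1) + (n + 1) * a ^ 2 * x ^ n := by ring
    rw [h4]
    linarith

theorem TT_bounds (x : ℕ → ℝ) (Q : List ℕ) (hx : ∀ q ∈ Q, 0 ≤ x q ∧ x q ≤ 1 / 2) (r : ℕ) :
    (Even r → 0 ≤ TT x r Q - FF x Q ∧ TT x r Q - FF x Q ≤ LL x Q ^ (r + 1) / (r + 1).factorial) ∧
    (¬ Even r → 0 ≤ FF x Q - TT x r Q ∧
      FF x Q - TT x r Q ≤ LL x Q ^ (r + 1) / (r + 1).factorial) := by
  induction Q generalizing r with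
  | nil =>
    rw [TT_nil, FF_nil, LL_nil, zero_pow (Nat.succ_ne_zero r)]
    simp
  | cons q Q ih =>
    have hq := hx q List.mem_cons_self
    have hQ : ∀ q ∈ Q, 0 ≤ x q ∧ x q ≤ 1 / 2 := fun q' h => hx q' (List.mem_cons_of_mem _ h)
    cases r with
    | zero =>
      have h1 := FF_bounds x (q :: Q) hx
      refine ⟨fun _ => ?_, fun h => absurd (by decide) h⟩
      simp only [TT, zero_add, pow_one, Nat.factorial_one, Nat.cast_one, div_one]
      exact ⟨by linarith [h1.2.1], by linarith [h1.2.2]⟩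
    | succ r =>
      have hL : 0 ≤ LL x Q := by
        clear ih
        induction Q with
        | nil => rw [LL_nil]
        | cons q' Q ih =>
          rw [LL_cons]
          have h3 := (hQ q' List.mem_cons_self).1
          have h4 := ih (fun q'' h => by
            rcases List.mem_cons.1 h with rfl | h
            · exact hq
            · exact hQ q'' (List.mem_cons_of_mem _ h)) (fun q'' h => hQ q'' (List.mem_cons_of_mem _ h))
          linarith
      have key : LL x Q ^ (r + 1 + 1) / (r + 1 + 1).factorial +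
          x q * (LL x Q ^ (r + 1) / (r + 1).factorial) ≤
          LL x (q :: Q) ^ (r + 1 + 1) / (r + 1 + 1).factorial := by
        rw [LL_cons]
        have h1 := pow_add_le (x q) (LL x Q) hq.1 hL (r + 1)
        have h2 : ((r + 1 + 1).factorial : ℝ) = (r + 1 + 1) * (r + 1).factorial := by
          rw [Nat.factorial_succ]
          push_cast
          ring
        have h3 : (0 : ℝ) < (r + 1).factorial := by exact_mod_cast Nat.factorial_pos _
        have h4 : (0 : ℝ) < (r : ℝ) + 1 + 1 := by positivity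
        have h5 : x q * (LL x Q ^ (r + 1) / (r + 1).factorial) =
            ((r + 1 + 1) * x q * LL x Q ^ (r + 1)) / (r + 1 + 1).factorial := by
          rw [h2]
          field_simp
        rw [h5, ← add_div]
        apply div_le_div_of_nonneg_right _ (by positivity)
        push_cast at h1
        linarith
      simp only [TT]
      rw [FF_cons]
      have i1 := ih hQ (r + 1)
      have i2 := ih hQ r
      constructor
      · intro hr
        have hr' : ¬ Even r := by
          intro h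
          exact (Nat.even_add_one.1 hr) h
        obtain ⟨a1, a2⟩ := i1.1 hr
        obtain ⟨b1, b2⟩ := i2.2 hr'
        have c1 : TT x (r + 1) Q - x q * TT x r Q - (1 - x q) * FF x Q =
            (TT x (r + 1) Q - FF x Q) + x q * (FF x Q - TT x r Q) := by ring
        rw [c1]
        have c2 := mul_nonneg hq.1 b1
        have c3 := mul_le_mul_of_nonneg_left b2 hq.1
        constructor <;> linarith
      · intro hr
        have hr' : Even r := by
          by_contra h
          exact hr (Nat.even_add_one.2 h)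
        obtain ⟨a1, a2⟩ := i1.2 hr
        obtain ⟨b1, b2⟩ := i2.1 hr'
        have c1 : (1 - x q) * FF x Q - (TT x (r + 1) Q - x q * TT x r Q) =
            (FF x Q - TT x (r + 1) Q) + x q * (TT x r Q - FF x Q) := by ring
        rw [c1]
        have c2 := mul_nonneg hq.1 b1
        have c3 := mul_le_mul_of_nonneg_left b2 hq.1
        constructor <;> linarith

theorem RR_bound (w : ℕ → ℝ) (Q : List ℕ) (hw : ∀ q, 0 ≤ w q) (r : ℕ) :
    RR w r Q ≤ (1 + LL w Q) ^ r := by
  induction Q generalizing r with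
  | nil => rw [RR_nil, LL_nil]; simp
  | cons q Q ih =>
    cases r with
    | zero => simp [RR]
    | succ r =>
      simp only [RR]
      rw [LL_cons]
      have hL := LL_nonneg w hw Q
      have h1 := ih (r + 1)
      have h2 := mul_le_mul_of_nonneg_left (ih r) (hw q)
      have h3 : (1 + LL w Q) ^ r ≤ (1 + (w q + LL w Q)) ^ r :=
        pow_le_pow_left₀ (by linarith) (by linarith [hw q]) r
      calc RR w (r + 1) Q + w q * RR w r Q ≤ (1 + LL w Q) ^ (r + 1) + w q * (1 + LL w Q) ^ r := by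
            linarith
        _ = (1 + (w q + LL w Q)) * (1 + LL w Q) ^ r := by ring
        _ ≤ (1 + (w q + LL w Q)) * (1 + (w q + LL w Q)) ^ r :=
            mul_le_mul_of_nonneg_left h3 (by linarith [hw q])
        _ = (1 + (w q + LL w Q)) ^ (r + 1) := by ring

/-- **Sieve lemma.** -/
theorem sieve (E : ℕ → Finset ℕ) (J : ℕ) (Q : List ℕ) (r : ℕ) (hr : ¬ Even r)
    (hQ : ∀ q ∈ Q, 0 < q ∧ (∀ e ∈ E q, e < q) ∧ ((E q).card : ℝ) / q ≤ 1 / 2)
    (hP : Q.Pairwise Nat.Coprime) {lam W : ℝ}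
    (hlam : LL (fun q => ((E q).card : ℝ) / q) Q ≤ lam)
    (hW : LL (fun q => ((E q).card : ℝ)) Q ≤ W) (h21 : 21 * lam + 2 ≤ r)
    (hJ : 2 * Real.exp (2 * lam) * (1 + W) ^ r < J) :
    ∃ j < J, ∀ q ∈ Q, j % q ∉ E q := by
  set x : ℕ → ℝ := fun q => ((E q).card : ℝ) / q with hx
  have hx1 : ∀ q ∈ Q, 0 ≤ x q ∧ x q ≤ 1 / 2 := fun q h => ⟨by positivity, (hQ q h).2.2⟩
  have hx0 : ∀ q, 0 ≤ x q := fun q => by positivity
  have b1 := (bonf E J Q r 1 0 one_pos
    (fun q h => ⟨(hQ q h).1, Nat.coprime_one_left q, (hQ q h).2.1⟩) hP).2 hr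
  have b2 := (TT_bounds x Q hx1 r).2 hr
  have b3 := FF_bounds x Q hx1
  have b4 := RR_bound (fun q => ((E q).card : ℝ)) Q (fun q => Nat.cast_nonneg _) r
  have hL0 : 0 ≤ LL x Q := LL_nonneg x hx0 Q
  have hl0 : 0 ≤ lam := hL0.trans hlam
  have hW0 : 0 ≤ LL (fun q => ((E q).card : ℝ)) Q := LL_nonneg _ (fun q => Nat.cast_nonneg _) Q
  -- the tail
  have b5 : LL x Q ^ (r + 1) / (r + 1).factorial ≤ Real.exp (-(2 * lam)) / 2 := by
    have hR : (0 : ℝ) < (r + 1 : ℕ) := by positivity
    have c1 : ((r + 1 : ℕ) : ℝ) ^ (r + 1) / (r + 1).factorial ≤ Real.exp ((r + 1 : ℕ) : ℝ) :=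
      Real.pow_div_factorial_le_exp _ hR.le (r + 1)
    have c2 : LL x Q ≤ Real.exp (-3) * ((r + 1 : ℕ) : ℝ) := by
      have d1 : Real.exp 3 ≤ 21 := by
        have e1 : Real.exp 3 = Real.exp 1 ^ 3 := by
          rw [← Real.exp_nat_mul]
          norm_num
        have e2 := Real.exp_one_lt_d9
        have e3 : Real.exp 1 ^ 3 ≤ 2.7182818286 ^ 3 :=
          pow_le_pow_left₀ (Real.exp_pos 1).le e2.le 3
        rw [e1]
        refine e3.trans (by norm_num)
      have d2 : Real.exp 3 * LL x Q ≤ ((r + 1 : ℕ) : ℝ) := by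
        have e1 : Real.exp 3 * LL x Q ≤ 21 * lam := by
          calc Real.exp 3 * LL x Q ≤ 21 * LL x Q := mul_le_mul_of_nonneg_right d1 hL0
            _ ≤ 21 * lam := by linarith
        push_cast
        linarith
      have d3 : Real.exp (-3) * Real.exp 3 = 1 := by
        rw [← Real.exp_add]
        norm_num
      have d4 := mul_le_mul_of_nonneg_left d2 (Real.exp_pos (-3)).le
      rw [← mul_assoc, d3, one_mul] at d4
      exact d4
    have c3 : LL x Q ^ (r + 1) ≤ (Real.exp (-3) * ((r + 1 : ℕ) : ℝ)) ^ (r + 1) :=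
      pow_le_pow_left₀ hL0 c2 _
    have hfac : (0 : ℝ) < (r + 1).factorial := by exact_mod_cast Nat.factorial_pos _
    have c4 : LL x Q ^ (r + 1) / (r + 1).factorial ≤
        Real.exp (-3) ^ (r + 1) * Real.exp ((r + 1 : ℕ) : ℝ) := by
      calc LL x Q ^ (r + 1) / (r + 1).factorial ≤
            (Real.exp (-3) * ((r + 1 : ℕ) : ℝ)) ^ (r + 1) / (r + 1).factorial :=
              div_le_div_of_nonneg_right c3 hfac.le
        _ = Real.exp (-3) ^ (r + 1) * (((r + 1 : ℕ) : ℝ) ^ (r + 1) / (r + 1).factorial) := by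
            rw [mul_pow, mul_div_assoc]
        _ ≤ Real.exp (-3) ^ (r + 1) * Real.exp ((r + 1 : ℕ) : ℝ) :=
            mul_le_mul_of_nonneg_left c1 (by positivity)
    refine c4.trans ?_
    have c5 : Real.exp (-3) ^ (r + 1) * Real.exp ((r + 1 : ℕ) : ℝ) =
        Real.exp (-(2 * ((r + 1 : ℕ) : ℝ))) := by
      rw [← Real.exp_nat_mul, ← Real.exp_add]
      congr 1
      push_cast
      ring
    rw [c5]
    have c6 : Real.exp (-(2 * lam)) / 2 ≥ Real.exp (-(2 * lam) - 1) := by
      rw [Real.exp_sub, ge_iff_le]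
      have := Real.add_one_le_exp (1 : ℝ)
      apply div_le_div_of_nonneg_left (Real.exp_pos _).le (by norm_num)
      linarith
    refine le_trans (Real.exp_le_exp.2 ?_) c6
    push_cast
    linarith
  have b6 : Real.exp (-(2 * lam)) ≤ FF x Q := by
    refine le_trans (Real.exp_le_exp.2 ?_) b3.1
    linarith
  have b7 : Real.exp (-(2 * lam)) / 2 ≤ TT x r Q := by
    linarith [b2.2]
  have b8 : RR (fun q => ((E q).card : ℝ)) r Q ≤ (1 + W) ^ r :=
    b4.trans (pow_le_pow_left₀ (by linarith) (by linarith) r)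
  have b9 : (1 + W) ^ r < J * (Real.exp (-(2 * lam)) / 2) := by
    have d1 : Real.exp (-(2 * lam)) * Real.exp (2 * lam) = 1 := by
      rw [← Real.exp_add]
      norm_num
    have d2 := mul_lt_mul_of_pos_right hJ (show 0 < Real.exp (-(2 * lam)) / 2 by positivity)
    have d3 : 2 * Real.exp (2 * lam) * (1 + W) ^ r * (Real.exp (-(2 * lam)) / 2) =
        (1 + W) ^ r * (Real.exp (-(2 * lam)) * Real.exp (2 * lam)) := by ring
    rw [d3, d1, mul_one] at d2
    exact d2
  have b10 : (J : ℝ) * (Real.exp (-(2 * lam)) / 2) ≤ J * TT x r Q :=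
    mul_le_mul_of_nonneg_left b7 (Nat.cast_nonneg _)
  have b11 : (0 : ℝ) < (good E J Q 1 0).card := by
    have d1 : (J : ℝ) / ((1 : ℕ) : ℝ) * TT x r Q - RR (fun q => ((E q).card : ℝ)) r Q ≤
        (good E J Q 1 0).card := b1
    rw [Nat.cast_one, div_one] at d1
    linarith
  have b12 : 0 < (good E J Q 1 0).card := by exact_mod_cast b11
  obtain ⟨j, hj⟩ := card_pos.1 b12
  simp only [good, mem_filter, mem_range] at hj
  exact ⟨j, hj.1, hj.2.2⟩

end Pool.Agent.Helper95.FC
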