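import Pool.Agent.Helper95.FC.Sieve2

set_option autoImplicit false

/-!
# Reduction to the sieve
-/

namespace Pool.Agent.Helper95.FC

open Finset

/-- The product of the largest powers `≤ Y` of the primes `≤ z`. -/
def NN (z Y : ℕ) : ℕ := ∏ q ∈ (range (z + 1)).filter Nat.Prime, q ^ Nat.log q Y

theorem NN_pos (z Y : ℕ) : 0 < NN z Y := by
  refine prod_pos fun q hq => ?_
  exact pow_pos (mem_filter.1 hq).2.pos _

theorem dvd_NN {z Y n : ℕ} (hn : n ≠ 0) (hnY : n ≤ Y) (h : ∀ q, q.Prime → q ∣ n → q ≤ z) :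
    n ∣ NN z Y := by
  rw [Nat.dvd_iff_prime_pow_dvd_dvd]
  intro p k hp hpk
  rcases Nat.eq_zero_or_pos k with rfl | hk
  · simp
  have h1 : p ≤ z := h p hp ((dvd_pow_self p hk.ne').trans hpk)
  have h2 : p ^ k ≤ Y := (Nat.le_of_dvd (Nat.pos_of_ne_zero hn) hpk).trans hnY
  have h3 : k ≤ Nat.log p Y := Nat.le_log_of_pow_le hp.one_lt h2
  refine (pow_dvd_pow p h3).trans ?_
  exact dvd_prod_of_mem (fun q => q ^ Nat.log q Y)
    (mem_filter.2 ⟨mem_range.2 (by omega), hp⟩)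

theorem coprime_NN {z Y q : ℕ} (hq : q.Prime) (hqz : z < q) : (NN z Y).Coprime q := by
  refine Nat.Coprime.prod_left fun p hp => ?_
  rw [mem_filter, mem_range] at hp
  refine Nat.Coprime.pow_left _ ?_
  rw [Nat.coprime_primes hp.2 hq]
  omega

theorem NN_le (z Y : ℕ) (hY : Y ≠ 0) : NN z Y ≤ Y ^ Nat.primeCounting z := by
  unfold NN
  refine (prod_le_pow_card _ _ Y fun q _ => Nat.pow_log_le_self q hY).trans ?_
  rw [Nat.primeCounting, Nat.primeCounting', Nat.count_eq_card_filter_range]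

/-- The primes `p ≤ Y` with `q ∣ p - 1`. -/
def Pq (Y q : ℕ) : Finset ℕ := (range (Y + 1)).filter (fun p => p.Prime ∧ q ∣ p - 1)

theorem reduce {d Y z J a ks : ℕ} (hd : 0 < d)
    (hY : Y < (d * 2 ^ ks + 1).minFac)
    (hS : ∀ E : ℕ → Finset ℕ, (∀ q, q.Prime → z < q → q ≤ Y →
      (∀ e ∈ E q, e < q) ∧ (E q).card ≤ (Pq Y q).card) →
      ∃ j < J, ∀ q, q.Prime → z < q → q ≤ Y → j % q ∉ E q) :
    ∃ k, a < k ∧ k ≤ a + NN z Y * J ∧ Y < (d * 2 ^ k + 1).minFac := by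
  classical
  set N := NN z Y with hN
  have hN0 : 0 < N := NN_pos z Y
  -- the class of `ks`
  obtain ⟨c, hc1, hc2, hc3⟩ : ∃ c, a < c ∧ c ≤ a + N ∧ c ≡ ks [MOD N] := by
    refine ⟨a + 1 + (ks + (a + 1) * (N - 1)) % N, by omega, ?_, ?_⟩
    · have := Nat.mod_lt (ks + (a + 1) * (N - 1)) hN0
      omega
    · have h1 : a + 1 + (ks + (a + 1) * (N - 1)) % N ≡ a + 1 + (ks + (a + 1) * (N - 1)) [MOD N] :=
        Nat.ModEq.add_left _ (Nat.mod_modEq _ _)
      refine h1.trans ?_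
      have h2 : a + 1 + (ks + (a + 1) * (N - 1)) = ks + (a + 1) * N := by
        obtain ⟨n, hn⟩ : ∃ n, N = n + 1 := ⟨N - 1, by omega⟩
        rw [hn, Nat.add_sub_cancel]
        ring
      rw [h2]
      unfold Nat.ModEq
      rw [Nat.add_mul_mod_self_right]
  set E : ℕ → Finset ℕ := fun q => (Pq Y q).image (fun p =>
    if h : ∃ j, q ∣ orderOf (2 : ZMod p) ∧ p ∣ d * 2 ^ (c + N * j) + 1 then h.choose % q else 0)
    with hE
  obtain ⟨j, hj, hgood⟩ := hS E (fun q hq _ _ => ⟨fun e he => by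
    rw [hE, mem_image] at he
    obtain ⟨p, _, rfl⟩ := he
    split_ifs
    · exact Nat.mod_lt _ hq.pos
    · exact hq.pos, card_image_le⟩)
  refine ⟨c + N * j, by omega, ?_, ?_⟩
  · have h1 : N * j + N ≤ N * J := by
      calc N * j + N = N * (j + 1) := by ring
        _ ≤ N * J := Nat.mul_le_mul_left _ hj
    omega
  by_contra hcon
  rw [not_lt] at hcon
  set k := c + N * j with hk
  set p := (d * 2 ^ k + 1).minFac with hp
  have hs1 : d * 2 ^ k + 1 ≠ 1 := by
    have : 0 < d * 2 ^ k := by positivity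
    omega
  have hpp : p.Prime := Nat.minFac_prime hs1
  have hpd : p ∣ d * 2 ^ k + 1 := Nat.minFac_dvd _
  have : Fact p.Prime := ⟨hpp⟩
  have hp2 : p ≠ 2 := by
    intro h
    rw [h] at hpd
    have hk1 : 0 < k := by omega
    have h1 : 2 ∣ d * 2 ^ k := dvd_mul_of_dvd_right (dvd_pow_self 2 hk1.ne') d
    have h2 : 2 ∣ 1 := (Nat.dvd_add_right h1).1 hpd
    omega
  have h20 : (2 : ZMod p) ≠ 0 := by
    intro h
    have h1 : ((2 : ℕ) : ZMod p) = 0 := by exact_mod_cast h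
    rw [ZMod.natCast_eq_zero_iff] at h1
    exact hp2 ((Nat.prime_dvd_prime_iff_eq hpp Nat.prime_two).1 h1)
  have hz : ∀ m : ℕ, p ∣ d * 2 ^ m + 1 ↔ (d : ZMod p) * 2 ^ m + 1 = 0 := by
    intro m
    rw [← ZMod.natCast_eq_zero_iff]
    push_cast
    rfl
  have hord : orderOf (2 : ZMod p) ∣ p - 1 := ZMod.orderOf_dvd_card_sub_one h20
  have hp3 := hpp.two_le
  have hordp : 0 < orderOf (2 : ZMod p) :=
    Nat.pos_of_dvd_of_pos hord (by omega)
  have hordle : orderOf (2 : ZMod p) ≤ Y := by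
    have := Nat.le_of_dvd (by omega) hord
    omega
  by_cases hsm : ∀ q, q.Prime → q ∣ orderOf (2 : ZMod p) → q ≤ z
  · have h1 : orderOf (2 : ZMod p) ∣ N := dvd_NN hordp.ne' hordle hsm
    have h2 : k ≡ ks [MOD N] := by
      have h3 : c + N * j ≡ c [MOD N] := by
        unfold Nat.ModEq
        rw [Nat.add_mul_mod_self_left]
      exact h3.trans hc3
    have h3 : k ≡ ks [MOD orderOf (2 : ZMod p)] := h2.of_dvd h1
    have h4 : (2 : ZMod p) ^ k = 2 ^ ks := by
      rw [← pow_mod_orderOf, h3, pow_mod_orderOf]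
    have h5 : p ∣ d * 2 ^ ks + 1 := by
      rw [hz, ← h4, ← hz]
      exact hpd
    have h6 := Nat.minFac_le_of_dvd hpp.two_le h5
    omega
  · push Not at hsm
    obtain ⟨q, hq, hqo, hqz⟩ := hsm
    have hqY : q ≤ Y := (Nat.le_of_dvd hordp hqo).trans hordle
    refine hgood q hq hqz hqY ?_
    rw [hE, mem_image]
    have hex : ∃ j, q ∣ orderOf (2 : ZMod p) ∧ p ∣ d * 2 ^ (c + N * j) + 1 := ⟨j, hqo, hpd⟩
    refine ⟨p, mem_filter.2 ⟨mem_range.2 (by omega), hpp, hqo.trans hord⟩, ?_⟩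
    rw [dif_pos hex]
    obtain ⟨-, hj0⟩ := hex.choose_spec
    set j0 := hex.choose with hj0'
    have h1 : (d : ZMod p) * 2 ^ (c + N * j0) = d * 2 ^ k := by
      have e1 := (hz _).1 hj0
      have e2 := (hz _).1 hpd
      linear_combination e1 - e2
    have hd0 : (d : ZMod p) ≠ 0 := by
      intro h
      have e2 := (hz _).1 hpd
      rw [h, zero_mul, zero_add] at e2
      exact one_ne_zero e2
    have h2 : (2 : ZMod p) ^ (c + N * j0) = 2 ^ k := mul_left_cancel₀ hd0 h1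
    have h3 : c + N * j0 ≡ c + N * j [MOD orderOf (2 : ZMod p)] := by
      have e1 : (Units.mk0 (2 : ZMod p) h20) ^ (c + N * j0) =
          (Units.mk0 (2 : ZMod p) h20) ^ (c + N * j) := by
        ext
        push_cast
        exact h2
      have e2 := (pow_eq_pow_iff_modEq).1 e1
      rwa [← orderOf_units, Units.val_mk0] at e2
    have h4 : N * j0 ≡ N * j [MOD q] := Nat.ModEq.add_left_cancel' c (h3.of_dvd hqo)
    have h5 : j0 ≡ j [MOD q] :=
      Nat.ModEq.cancel_left_of_coprime (by rw [Nat.gcd_comm]; exact coprime_NN hq hqz) h4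
    exact h5

end Pool.Agent.Helper95.FC
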