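import Pool.Agent.Helper95.FC.App

/-!
# Bounds for the number of primes `p ≤ Y` with `q ∣ p - 1`, and for the sums over `q`
-/

set_option autoImplicit false

open Finset

namespace Pool.Agent.Helper95.FC

theorem exists_inv {q M : ℕ} (h : q.Coprime M) (hM : 0 < M) : ∃ u, q * u ≡ 1 [MOD M] := by
  rcases Nat.eq_or_lt_of_le (Nat.succ_le_of_lt hM) with h1 | h1
  · refine ⟨0, ?_⟩
    have h2 : M = 1 := h1.symm
    rw [h2]
    exact Nat.modEq_one
  · obtain ⟨u, _, hu⟩ := Nat.exists_mul_mod_eq_one_of_coprime h h1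
    refine ⟨u, ?_⟩
    unfold Nat.ModEq
    rw [hu, Nat.mod_eq_of_lt h1]

theorem card_Pq_le {Y q M : ℕ} (hq : q.Prime) (hM : 0 < M) (hqM : M < q) :
    (Pq Y q).card ≤ M.totient * (Y / q / M + 1) := by
  classical
  have hco : q.Coprime M := Nat.coprime_of_lt_prime hM.ne' hqM hq
  obtain ⟨u, hu⟩ := exists_inv hco hM
  refine le_trans ?_ (Nat.Ico_filter_coprime_le (u + 1) (Y / q) hM.ne')
  refine card_le_card_of_injOn (fun p => u + (p - 1) / q) ?_ ?_
  · intro p hp
    have hp' := mem_coe.1 hp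
    unfold Pq at hp'
    rw [mem_filter, mem_range] at hp'
    obtain ⟨hpY, hpp, t, ht⟩ := hp'
    have h1 : (p - 1) / q = t := by rw [ht, Nat.mul_div_cancel_left _ hq.pos]
    have hp1 : p = q * t + 1 := by
      have := hpp.one_lt
      omega
    have ht0 : 0 < t := by
      rcases Nat.eq_zero_or_pos t with h0 | h0
      · rw [h0, mul_zero] at hp1
        exact absurd hp1 hpp.one_lt.ne'
      · exact h0
    have hpM : M < p := by
      calc M < q := hqM
        _ ≤ q * t := Nat.le_mul_of_pos_right q ht0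
        _ < p := by omega
    have hcp : p.Coprime M := Nat.coprime_of_lt_prime hM.ne' hpM hpp
    rw [mem_coe, mem_filter, mem_Ico]
    refine ⟨⟨?_, ?_⟩, ?_⟩
    · change u + 1 ≤ u + (p - 1) / q
      omega
    · change u + (p - 1) / q < u + 1 + Y / q
      have h2 : (p - 1) / q ≤ Y / q := Nat.div_le_div_right (by omega)
      omega
    · change M.Coprime (u + (p - 1) / q)
      rw [h1]
      have h3 : q * (u + t) ≡ p [MOD M] := by
        rw [hp1, mul_add, add_comm (q * t) 1]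
        exact Nat.ModEq.add_right _ hu
      have h4 : Nat.gcd (q * (u + t)) M = 1 := by
        rw [h3.gcd_eq]
        exact hcp
      exact (Nat.Coprime.coprime_mul_left h4).symm
  · intro p hp p' hp' he
    have h1 := mem_coe.1 hp
    have h2 := mem_coe.1 hp'
    unfold Pq at h1 h2
    rw [mem_filter, mem_range] at h1 h2
    obtain ⟨_, hpp, t, ht⟩ := h1
    obtain ⟨_, hpp', t', ht'⟩ := h2
    have he' : u + (p - 1) / q = u + (p' - 1) / q := he
    rw [ht, ht', Nat.mul_div_cancel_left _ hq.pos, Nat.mul_div_cancel_left _ hq.pos] at he'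
    have h3 : t = t' := by omega
    have := hpp.one_lt
    have := hpp'.one_lt
    rw [h3] at ht
    omega

theorem card_Pq_real {Y q M : ℕ} {ρ : ℝ} (hq : q.Prime) (hM : 0 < M) (hqM : M < q)
    (hρ : (M.totient : ℝ) ≤ ρ * M) : ((Pq Y q).card : ℝ) ≤ ρ * Y / q + M := by
  have h1 : ((Pq Y q).card : ℝ) ≤ M.totient * ((Y / q / M : ℕ) + 1) := by
    exact_mod_cast card_Pq_le (Y := Y) hq hM hqM
  have hM' : (0 : ℝ) < M := by exact_mod_cast hM
  have hq' : (0 : ℝ) < q := by exact_mod_cast hq.pos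
  have h2 : ((Y / q / M : ℕ) : ℝ) ≤ (Y : ℝ) / q / M :=
    (Nat.cast_div_le).trans (div_le_div_of_nonneg_right Nat.cast_div_le hM'.le)
  have h3 : (M.totient : ℝ) ≤ M := by exact_mod_cast Nat.totient_le M
  have h4 : (0 : ℝ) ≤ (Y : ℝ) / q / M := by positivity
  calc ((Pq Y q).card : ℝ) ≤ M.totient * ((Y / q / M : ℕ) + 1) := h1
    _ = M.totient * (Y / q / M : ℕ) + M.totient := by ring
    _ ≤ ρ * M * ((Y : ℝ) / q / M) + M :=
      add_le_add (mul_le_mul hρ h2 (Nat.cast_nonneg _) ((Nat.cast_nonneg _).trans hρ)) h3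
    _ = ρ * Y / q + M := by
      field_simp

theorem card_Pq_triv (Y q : ℕ) : (Pq Y q).card ≤ Y + 1 := by
  unfold Pq
  refine (card_filter_le _ _).trans ?_
  rw [card_range]

/-- a modulus with small density of units -/
theorem exists_M (ρ : ℝ) (hρ : 0 < ρ) : ∃ M : ℕ, 0 < M ∧ (M.totient : ℝ) ≤ ρ * M := by
  classical
  obtain ⟨s, hs⟩ : ∃ s : Finset Nat.Primes, -Real.log ρ < ∑ p ∈ s, (1 / (p : ℝ)) := by
    by_contra hcon
    push Not at hcon
    exact Nat.Primes.not_summable_one_div (summable_of_sum_le (fun p => by positivity) hcon)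
  have key : ∀ s : Finset Nat.Primes, 0 < ∏ p ∈ s, (p : ℕ) ∧
      (((∏ p ∈ s, (p : ℕ)).totient : ℕ) : ℝ) ≤
        Real.exp (-∑ p ∈ s, (1 / (p : ℝ))) * ((∏ p ∈ s, (p : ℕ) : ℕ) : ℝ) := by
    intro s
    induction s using Finset.induction_on with
    | empty => simp
    | insert p s hps ih =>
      rw [prod_insert hps, sum_insert hps]
      refine ⟨Nat.mul_pos p.2.pos ih.1, ?_⟩
      have hco : Nat.Coprime (p : ℕ) (∏ q ∈ s, (q : ℕ)) := by
        refine Nat.Coprime.prod_right fun q hq => ?_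
        refine (Nat.coprime_primes p.2 q.2).2 fun he => ?_
        exact hps (Subtype.ext he ▸ hq)
      rw [Nat.totient_mul hco, Nat.totient_prime p.2, neg_add, Real.exp_add]
      have hp1 : (0 : ℝ) < (p : ℕ) := by exact_mod_cast p.2.pos
      have h1 : (((p : ℕ) - 1 : ℕ) : ℝ) ≤ Real.exp (-(1 / ((p : ℕ) : ℝ))) * (p : ℕ) := by
        rw [Nat.cast_sub p.2.one_lt.le, Nat.cast_one]
        have h2 := Real.add_one_le_exp (-(1 / ((p : ℕ) : ℝ)))
        calc ((p : ℕ) : ℝ) - 1 = (-(1 / ((p : ℕ) : ℝ)) + 1) * (p : ℕ) := by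
              field_simp
              ring
          _ ≤ _ := mul_le_mul_of_nonneg_right h2 hp1.le
      push_cast
      calc (((p : ℕ) - 1 : ℕ) : ℝ) * ((∏ q ∈ s, (q : ℕ)).totient : ℝ)
          ≤ (Real.exp (-(1 / ((p : ℕ) : ℝ))) * (p : ℕ)) *
            (Real.exp (-∑ p ∈ s, (1 / (p : ℝ))) * ((∏ p ∈ s, (p : ℕ) : ℕ) : ℝ)) :=
            mul_le_mul h1 ih.2 (Nat.cast_nonneg _) (by positivity)
        _ = _ := by
          push_cast
          ring
  refine ⟨∏ p ∈ s, (p : ℕ), (key s).1, (key s).2.trans ?_⟩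
  refine mul_le_mul_of_nonneg_right ?_ (Nat.cast_nonneg _)
  calc Real.exp (-∑ p ∈ s, (1 / (p : ℝ))) ≤ Real.exp (Real.log ρ) := by
        apply Real.exp_le_exp.2
        linarith
    _ = ρ := Real.exp_log hρ

theorem theta_succ (n : ℕ) : Chebyshev.theta (n + 1 : ℕ) =
    Chebyshev.theta n + if (n + 1).Prime then Real.log (n + 1 : ℕ) else 0 := by
  rw [Chebyshev.theta_eq_sum_primesLE_log, Chebyshev.theta_eq_sum_primesLE_log]
  have h1 : ∀ m : ℕ, Nat.primesLE m = (range (m + 1)).filter Nat.Prime := fun _ => rfl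
  rw [h1, h1, range_add_one (n := n + 1), filter_insert]
  split_ifs with h
  · rw [sum_insert, add_comm]
    simp
  · rw [add_zero]

theorem sum_log_sq (z n : ℕ) (hn : z ≤ n) :
    ∑ q ∈ (Ioc z n).filter Nat.Prime, Real.log q / (q : ℝ) ^ 2 ≤
      Chebyshev.theta n / ((n : ℝ) + 1) ^ 2 +
        2 * Real.log 4 * (1 / ((z : ℝ) + 1) - 1 / ((n : ℝ) + 1)) := by
  induction n, hn using Nat.le_induction with
  | base =>
    rw [Ioc_self, filter_empty, sum_empty, sub_self, mul_zero, add_zero]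
    exact div_nonneg (Chebyshev.theta_nonneg _) (by positivity)
  | succ n hn ih =>
    have h1 : (Ioc z (n + 1)).filter Nat.Prime =
        if (n + 1).Prime then insert (n + 1) ((Ioc z n).filter Nat.Prime)
        else (Ioc z n).filter Nat.Prime := by
      have h2 : Ioc z (n + 1) = insert (n + 1) (Ioc z n) := by
        ext x
        rw [mem_insert, mem_Ioc, mem_Ioc]
        omega
      rw [h2, filter_insert]
    have h3 : ∑ q ∈ (Ioc z (n + 1)).filter Nat.Prime, Real.log q / (q : ℝ) ^ 2 =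
        (if (n + 1).Prime then Real.log (n + 1 : ℕ) else 0) / ((n + 1 : ℕ) : ℝ) ^ 2 +
          ∑ q ∈ (Ioc z n).filter Nat.Prime, Real.log q / (q : ℝ) ^ 2 := by
      rw [h1]
      split_ifs with h
      · rw [sum_insert]
        simp
      · rw [zero_div, zero_add]
    rw [h3]
    have h4 := theta_succ n
    set T := Chebyshev.theta (n + 1 : ℕ) with hT
    set L : ℝ := if (n + 1).Prime then Real.log (n + 1 : ℕ) else 0 with hL
    have h5 : Chebyshev.theta n = T - L := by linarith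
    rw [h5] at ih
    have h6 : T ≤ Real.log 4 * (n + 1) := by
      have := Chebyshev.theta_le_log4_mul_x (x := ((n + 1 : ℕ) : ℝ)) (by positivity)
      push_cast at this
      rw [hT]
      push_cast
      exact this
    push_cast
    have hn1 : (0 : ℝ) < (n : ℝ) + 1 := by positivity
    have hn2 : (0 : ℝ) < (n : ℝ) + 1 + 1 := by positivity
    have h8 : (0 : ℝ) ≤ Real.log 4 := Real.log_nonneg (by norm_num)
    have h7 : T * (1 / ((n : ℝ) + 1) ^ 2 - 1 / ((n : ℝ) + 1 + 1) ^ 2) ≤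
        2 * Real.log 4 * (1 / ((n : ℝ) + 1) - 1 / ((n : ℝ) + 1 + 1)) := by
      have e0 : 0 ≤ 1 / ((n : ℝ) + 1) ^ 2 - 1 / ((n : ℝ) + 1 + 1) ^ 2 := by
        rw [sub_nonneg]
        apply one_div_le_one_div_of_le (by positivity)
        gcongr
        linarith
      calc T * (1 / ((n : ℝ) + 1) ^ 2 - 1 / ((n : ℝ) + 1 + 1) ^ 2)
          ≤ Real.log 4 * (n + 1) * (1 / ((n : ℝ) + 1) ^ 2 - 1 / ((n : ℝ) + 1 + 1) ^ 2) :=
            mul_le_mul_of_nonneg_right h6 e0
        _ = Real.log 4 * ((2 * n + 3) / ((n + 1) * (n + 1 + 1) ^ 2)) := by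
            field_simp
            ring
        _ ≤ Real.log 4 * (2 * (1 / ((n : ℝ) + 1) - 1 / ((n : ℝ) + 1 + 1))) := by
            refine mul_le_mul_of_nonneg_left ?_ h8
            have e1 : 2 * (1 / ((n : ℝ) + 1) - 1 / ((n : ℝ) + 1 + 1)) =
                (2 * (n + 1 + 1)) / ((n + 1) * (n + 1 + 1) ^ 2) := by
              field_simp
              ring
            rw [e1]
            gcongr
            linarith
        _ = _ := by ring
    have h9 : T / ((n : ℝ) + 1) ^ 2 = T * (1 / ((n : ℝ) + 1) ^ 2) := by ring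
    have h10 : T / ((n : ℝ) + 1 + 1) ^ 2 = T * (1 / ((n : ℝ) + 1 + 1) ^ 2) := by ring
    have h11 : (T - L) / ((n : ℝ) + 1) ^ 2 = T * (1 / ((n : ℝ) + 1) ^ 2) - L / ((n : ℝ) + 1) ^ 2 := by
      ring
    rw [h11] at ih
    rw [h10]
    nlinarith

theorem sum_inv_sq (z n : ℕ) (hz : 2 ≤ z) (hn : z ≤ n) :
    ∑ q ∈ (Ioc z n).filter Nat.Prime, 1 / (q : ℝ) ^ 2 ≤
      2 * Real.log 4 / (((z : ℝ) + 1) * Real.log z) := by
  have hlz : 0 < Real.log z := Real.log_pos (by exact_mod_cast hz)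
  have h8 : (0 : ℝ) ≤ Real.log 4 := Real.log_nonneg (by norm_num)
  have h1 : Real.log z * ∑ q ∈ (Ioc z n).filter Nat.Prime, 1 / (q : ℝ) ^ 2 ≤
      ∑ q ∈ (Ioc z n).filter Nat.Prime, Real.log q / (q : ℝ) ^ 2 := by
    rw [mul_sum]
    refine sum_le_sum fun q hq => ?_
    rw [mem_filter, mem_Ioc] at hq
    have h2 : Real.log z ≤ Real.log q :=
      Real.log_le_log (by exact_mod_cast (by omega : 0 < z)) (by exact_mod_cast hq.1.1.le)
    rw [mul_one_div]
    gcongr
  have h3 := sum_log_sq z n hn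
  have h4 : Chebyshev.theta n / ((n : ℝ) + 1) ^ 2 ≤ 2 * Real.log 4 * (1 / ((n : ℝ) + 1)) := by
    have e1 := Chebyshev.theta_le_log4_mul_x (x := (n : ℝ)) (by positivity)
    have hn1 : (0 : ℝ) < (n : ℝ) + 1 := by positivity
    calc Chebyshev.theta n / ((n : ℝ) + 1) ^ 2 ≤ (Real.log 4 * (n + 1)) / ((n : ℝ) + 1) ^ 2 := by
          gcongr
          exact e1.trans (by nlinarith)
      _ = Real.log 4 * (1 / ((n : ℝ) + 1)) := by
          field_simp
      _ ≤ _ := by
          have : 0 ≤ Real.log 4 * (1 / ((n : ℝ) + 1)) := by positivity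
          linarith
  have h5 : Real.log z * ∑ q ∈ (Ioc z n).filter Nat.Prime, 1 / (q : ℝ) ^ 2 ≤
      2 * Real.log 4 * (1 / ((z : ℝ) + 1)) := by
    have : 2 * Real.log 4 * (1 / ((z : ℝ) + 1) - 1 / ((n : ℝ) + 1)) =
      2 * Real.log 4 * (1 / ((z : ℝ) + 1)) - 2 * Real.log 4 * (1 / ((n : ℝ) + 1)) := by ring
    linarith
  rw [le_div_iff₀ (by positivity)]
  have hz1 : (0 : ℝ) < (z : ℝ) + 1 := by positivity
  calc (∑ q ∈ (Ioc z n).filter Nat.Prime, 1 / (q : ℝ) ^ 2) * (((z : ℝ) + 1) * Real.log z)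
      = (Real.log z * ∑ q ∈ (Ioc z n).filter Nat.Prime, 1 / (q : ℝ) ^ 2) * ((z : ℝ) + 1) := by
        ring
    _ ≤ (2 * Real.log 4 * (1 / ((z : ℝ) + 1))) * ((z : ℝ) + 1) :=
        mul_le_mul_of_nonneg_right h5 hz1.le
    _ = 2 * Real.log 4 := by
        field_simp

theorem sum_inv (z n : ℕ) :
    ∑ q ∈ (Ioc z n).filter Nat.Prime, 1 / (q : ℝ) ≤ 1 + Real.log n := by
  have h1 := harmonic_le_one_add_log n
  rw [harmonic_eq_sum_Icc] at h1
  push_cast at h1
  refine le_trans ?_ h1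
  calc ∑ q ∈ (Ioc z n).filter Nat.Prime, 1 / (q : ℝ) ≤ ∑ q ∈ Icc 1 n, 1 / (q : ℝ) := by
        refine sum_le_sum_of_subset_of_nonneg ?_ fun q _ _ => by positivity
        intro q hq
        rw [mem_filter, mem_Ioc] at hq
        rw [mem_Icc]
        omega
    _ = ∑ q ∈ Icc 1 n, ((q : ℝ))⁻¹ := by simp only [one_div]

end Pool.Agent.Helper95.FC
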