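import Pool.Agent.Helper95.FC.Par

/-!
# A long window with small least prime factors implies small least prime factors everywhere
-/

set_option autoImplicit false

namespace Pool.Agent.Helper95.FC

theorem window (A : ℝ) (hA : 0 < A) : ∃ K₀ : ℕ, ∀ d : ℕ, 0 < d → ∀ K : ℕ, K₀ ≤ K → ∀ a : ℕ,
    (∀ k, a < k → k ≤ a + K → ((d * 2 ^ k + 1).minFac : ℝ) ≤ A * Real.log K ^ 2) →
    ∀ k, ((d * 2 ^ k + 1).minFac : ℝ) ≤ A * Real.log K ^ 2 := by
  obtain ⟨Y₀, hY₀⟩ := params (1 / Real.sqrt A) (by positivity)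
  have h1 : Filter.Tendsto (fun K : ℕ => A * Real.log K ^ 2) Filter.atTop Filter.atTop := by
    refine Filter.Tendsto.const_mul_atTop hA ?_
    exact (Filter.tendsto_pow_atTop two_ne_zero).comp
      (Real.tendsto_log_atTop.comp tendsto_natCast_atTop_atTop)
  obtain ⟨K₀, hK₀⟩ := Filter.eventually_atTop.1
    ((h1.eventually_ge_atTop (Y₀ : ℝ)).and (Filter.eventually_ge_atTop 1))
  refine ⟨K₀, fun d hd K hK a h ks => ?_⟩
  obtain ⟨h2, h3⟩ := hK₀ K hK
  by_contra hcon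
  rw [not_le] at hcon
  set L := Real.log K with hL
  have hK1 : (1 : ℝ) ≤ K := by exact_mod_cast h3
  have hL0 : 0 ≤ L := Real.log_nonneg hK1
  have hAL : 0 ≤ A * L ^ 2 := by positivity
  set Y := ⌊A * L ^ 2⌋₊ with hY
  have hY1 : (Y : ℝ) ≤ A * L ^ 2 := Nat.floor_le hAL
  obtain ⟨z, J, hJ, hNJ, hS⟩ := hY₀ Y (Nat.le_floor h2)
  have hks : Y < (d * 2 ^ ks + 1).minFac := by
    have : (Y : ℝ) < ((d * 2 ^ ks + 1).minFac : ℝ) := hY1.trans_lt hcon
    exact_mod_cast this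
  obtain ⟨k, hk1, hk2, hk3⟩ := reduce (a := a) hd hks hS
  have hle : NN z Y * J ≤ K := by
    have e1 : Real.sqrt Y ≤ Real.sqrt A * L := by
      calc Real.sqrt Y ≤ Real.sqrt (A * L ^ 2) := Real.sqrt_le_sqrt hY1
        _ = Real.sqrt A * L := by
          rw [Real.sqrt_mul hA.le, Real.sqrt_sq hL0]
    have hsA : 0 < Real.sqrt A := Real.sqrt_pos.2 hA
    have e2 : 1 / Real.sqrt A * Real.sqrt Y ≤ L := by
      rw [one_div, inv_mul_le_iff₀ hsA]
      exact e1
    have e3 : Real.log ((NN z Y : ℝ) * J) ≤ Real.log K := hNJ.trans e2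
    have hpos : (0 : ℝ) < (NN z Y : ℝ) * J := by
      have := NN_pos z Y
      positivity
    have e4 : (NN z Y : ℝ) * J ≤ K := (Real.log_le_log_iff hpos (by linarith)).1 e3
    exact_mod_cast e4
  have h4 := h k hk1 (hk2.trans (Nat.add_le_add_left hle a))
  have h5 : (d * 2 ^ k + 1).minFac ≤ Y := Nat.le_floor h4
  omega

end Pool.Agent.Helper95.FC
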