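import Pool.Agent.Helper95.FC.Cnt

/-!
# Choice of the parameters
-/

set_option autoImplicit false

open Finset

namespace Pool.Agent.Helper95.FC

theorem sieve_app {Y z M r J : ℕ} {ρ lam : ℝ} (hz : 2 ≤ z) (hzY : z ≤ Y) (hM : 0 < M)
    (hMz : 4 * M ≤ z + 1) (hMt : (M.totient : ℝ) ≤ ρ * M) (hρ0 : 0 ≤ ρ)
    (h14 : ρ * Y ≤ ((z : ℝ) + 1) ^ 2 / 4)
    (hlam : ρ * Y * (2 * Real.log 4 / (((z : ℝ) + 1) * Real.log z)) + M * (1 + Real.log Y) ≤ lam)
    (hr : ¬ Even r) (h21 : 21 * lam + 2 ≤ r)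
    (hJ : 2 * Real.exp (2 * lam) * (1 + ((Y : ℝ) + 1) ^ 2) ^ r < J)
    (E : ℕ → Finset ℕ) (hE : ∀ q, q.Prime → z < q → q ≤ Y →
      (∀ e ∈ E q, e < q) ∧ (E q).card ≤ (Pq Y q).card) :
    ∃ j < J, ∀ q, q.Prime → z < q → q ≤ Y → j % q ∉ E q := by
  classical
  set Q : Finset ℕ := (Ioc z Y).filter Nat.Prime with hQ
  have hmem : ∀ q ∈ Q, q.Prime ∧ z < q ∧ q ≤ Y := by
    intro q hq
    rw [hQ, mem_filter, mem_Ioc] at hq
    exact ⟨hq.2, hq.1.1, hq.1.2⟩
  have hx : ∀ q ∈ Q, ((E q).card : ℝ) / q ≤ ρ * Y * (1 / (q : ℝ) ^ 2) + M * (1 / (q : ℝ)) := by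
    intro q hq
    obtain ⟨h1, h2, h3⟩ := hmem q hq
    have hq0 : (0 : ℝ) < q := by exact_mod_cast h1.pos
    have h4 : ((E q).card : ℝ) ≤ ρ * Y / q + M :=
      (Nat.cast_le.2 (hE q h1 h2 h3).2).trans (card_Pq_real h1 hM (by omega) hMt)
    rw [div_le_iff₀ hq0]
    refine h4.trans (le_of_eq ?_)
    field_simp
  have hM0 : (0 : ℝ) ≤ M := Nat.cast_nonneg M
  have hY0 : (0 : ℝ) ≤ Y := Nat.cast_nonneg Y
  obtain ⟨j, hj, hj2⟩ := sieve E J Q.toList r hr (lam := lam) (W := ((Y : ℝ) + 1) ^ 2) (by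
    intro q hq
    rw [mem_toList] at hq
    obtain ⟨h1, h2, h3⟩ := hmem q hq
    have hq0 : (0 : ℝ) < q := by exact_mod_cast h1.pos
    have hqz : (z : ℝ) + 1 ≤ q := by exact_mod_cast h2
    refine ⟨h1.pos, (hE q h1 h2 h3).1, (hx q hq).trans ?_⟩
    have hz0 : (0 : ℝ) < (z : ℝ) + 1 := by positivity
    have e1 : ρ * Y * (1 / (q : ℝ) ^ 2) ≤ 1 / 4 := by
      rw [mul_one_div, div_le_iff₀ (by positivity)]
      have e2 : ((z : ℝ) + 1) ^ 2 ≤ (q : ℝ) ^ 2 := pow_le_pow_left₀ hz0.le hqz 2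
      linarith
    have e3 : (M : ℝ) * (1 / (q : ℝ)) ≤ 1 / 4 := by
      rw [mul_one_div, div_le_iff₀ hq0]
      have e4 : (4 : ℝ) * M ≤ z + 1 := by exact_mod_cast hMz
      linarith
    linarith) (by
    refine (nodup_toList Q).pairwise_of_forall_ne ?_
    intro a ha b hb hab
    rw [mem_toList] at ha hb
    exact (Nat.coprime_primes (hmem a ha).1 (hmem b hb).1).2 hab) (by
    unfold LL
    rw [sum_map_toList]
    refine le_trans (sum_le_sum hx) (le_trans ?_ hlam)
    rw [sum_add_distrib, ← mul_sum, ← mul_sum]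
    exact add_le_add (mul_le_mul_of_nonneg_left (sum_inv_sq z Y hz hzY) (mul_nonneg hρ0 hY0))
      (mul_le_mul_of_nonneg_left (sum_inv z Y) hM0)) (by
    unfold LL
    rw [sum_map_toList]
    calc ∑ q ∈ Q, ((E q).card : ℝ) ≤ ∑ _q ∈ Q, ((Y : ℝ) + 1) := by
          refine sum_le_sum fun q hq => ?_
          obtain ⟨h1, h2, h3⟩ := hmem q hq
          have := (hE q h1 h2 h3).2.trans (card_Pq_triv Y q)
          exact_mod_cast this
      _ = Q.card * ((Y : ℝ) + 1) := by rw [sum_const, nsmul_eq_mul]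
      _ ≤ ((Y : ℝ) + 1) * ((Y : ℝ) + 1) := by
          refine mul_le_mul_of_nonneg_right ?_ (by positivity)
          have h1 : Q.card ≤ Y + 1 := by
            refine (card_filter_le _ _).trans ?_
            rw [Nat.card_Ioc]
            omega
          exact_mod_cast h1
      _ = ((Y : ℝ) + 1) ^ 2 := by ring) h21 hJ
  refine ⟨j, hj, fun q h1 h2 h3 => hj2 q ?_⟩
  rw [mem_toList, hQ, mem_filter, mem_Ioc]
  exact ⟨⟨h2, h3⟩, h1⟩

theorem log_four_le : Real.log 4 ≤ 1.4 := by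
  have h1 : Real.log 4 = 2 * Real.log 2 := by
    rw [show (4 : ℝ) = 2 ^ 2 by norm_num, Real.log_pow]
    norm_num
  have := Real.log_two_lt_d9
  rw [h1]
  linarith

/-- the facts on large `y` -/
theorem eventually_y (ε : ℝ) (hε : 0 < ε) (M : ℕ) (c : ℝ) (hc : 0 < c) :
    ∀ᶠ y : ℝ in Filter.atTop, 1 ≤ Real.log y ∧ Real.sqrt y + 1 ≤ c * y ∧ 4 * (M : ℝ) ≤ c * y ∧
      2 ≤ c * y ∧ c ≤ y ∧ 3 ≤ y ∧ (Nat.primeCounting ⌊c * y⌋₊ : ℝ) ≤ 2 * (c * y) / Real.log (c * y) ∧
      Real.log 3 + 24 * Real.log y + 128 * M * (1 + 2 * Real.log y) * Real.log y ≤ ε / 4 * y := by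
  have t1 := Real.tendsto_log_atTop.eventually_ge_atTop 1
  have t2 : ∀ᶠ y : ℝ in Filter.atTop, Real.sqrt y + 1 ≤ c * y := by
    filter_upwards [Filter.eventually_ge_atTop ((2 / c) ^ 2), Filter.eventually_ge_atTop (2 / c)]
      with y h1 h2
    have hy0 : 0 ≤ y := (by positivity : 0 ≤ 2 / c).trans h2
    have h3 : 2 / c ≤ Real.sqrt y := Real.le_sqrt_of_sq_le h1
    rw [div_le_iff₀ hc] at h2 h3
    have h4 := Real.mul_self_sqrt hy0
    have h5 := Real.sqrt_nonneg y
    nlinarith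
  have t3 : ∀ K : ℝ, ∀ᶠ y : ℝ in Filter.atTop, K ≤ c * y := by
    intro K
    filter_upwards [Filter.eventually_ge_atTop (K / c)] with y h1
    rw [div_le_iff₀ hc] at h1
    linarith
  have t4 := Filter.eventually_ge_atTop c
  have t5 : ∀ᶠ y : ℝ in Filter.atTop,
      (Nat.primeCounting ⌊c * y⌋₊ : ℝ) ≤ 2 * (c * y) / Real.log (c * y) := by
    have h1 := Chebyshev.eventually_primeCounting_le (ε := 2 - Real.log 4)
      (by linarith [log_four_le])
    have h2 : Filter.Tendsto (fun y : ℝ => c * y) Filter.atTop Filter.atTop :=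
      Filter.tendsto_id.const_mul_atTop hc
    filter_upwards [h2.eventually h1] with y h3
    refine h3.trans (le_of_eq ?_)
    ring
  have t6 : ∀ᶠ y : ℝ in Filter.atTop,
      Real.log 3 + 24 * Real.log y + 128 * M * (1 + 2 * Real.log y) * Real.log y ≤ ε / 4 * y := by
    have h1 : (fun _ : ℝ => Real.log 3) =o[Filter.atTop] (id : ℝ → ℝ) :=
      Asymptotics.isLittleO_const_id_atTop _
    have h2 : (fun y : ℝ => Real.log y) =o[Filter.atTop] (id : ℝ → ℝ) :=
      Real.isLittleO_log_id_atTop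
    have h3 : (fun y : ℝ => Real.log y ^ 2) =o[Filter.atTop] (id : ℝ → ℝ) :=
      Real.isLittleO_pow_log_id_atTop
    have h4 := (h1.add (h2.const_mul_left (24 + 128 * (M : ℝ)))).add
      (h3.const_mul_left (256 * (M : ℝ)))
    filter_upwards [h4.bound (show 0 < ε / 4 by positivity), Filter.eventually_ge_atTop 0]
      with y h5 hy0
    rw [id, Real.norm_of_nonneg hy0] at h5
    refine le_trans (le_of_eq ?_) ((le_abs_self _).trans h5)
    ring
  filter_upwards [t1, t2, t3 (4 * (M : ℝ)), t3 2, t4, Filter.eventually_ge_atTop 3, t5, t6]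
    with y a1 a2 a3 a4 a5 a6 a7 a8
  exact ⟨a1, a2, a3, a4, a5, a6, a7, a8⟩

theorem params (ε : ℝ) (hε : 0 < ε) : ∃ Y₀ : ℕ, ∀ Y : ℕ, Y₀ ≤ Y → ∃ z J : ℕ, 0 < J ∧
    Real.log ((NN z Y : ℝ) * J) ≤ ε * Real.sqrt Y ∧
    ∀ E : ℕ → Finset ℕ, (∀ q, q.Prime → z < q → q ≤ Y →
      (∀ e ∈ E q, e < q) ∧ (E q).card ≤ (Pq Y q).card) →
      ∃ j < J, ∀ q, q.Prime → z < q → q ≤ Y → j % q ∉ E q := by
  set c : ℝ := ε / 32 with hc
  have hc0 : 0 < c := by positivity
  set ρ : ℝ := ε * c / 3000 with hρ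
  have hρ0 : 0 < ρ := by positivity
  obtain ⟨M, hM, hMt⟩ := exists_M ρ hρ0
  have ht : Filter.Tendsto (fun Y : ℕ => Real.sqrt (Y : ℝ)) Filter.atTop Filter.atTop :=
    Real.tendsto_sqrt_atTop.comp tendsto_natCast_atTop_atTop
  obtain ⟨Y₀, hY₀⟩ := Filter.eventually_atTop.1 (ht.eventually (eventually_y ε hε M c hc0))
  refine ⟨Y₀, fun Y hY => ?_⟩
  obtain ⟨a1, a2, a3, a4, a5, a6, a7, a8⟩ := hY₀ Y hY
  set y := Real.sqrt (Y : ℝ) with hy
  have hyY : y * y = Y := Real.mul_self_sqrt (Nat.cast_nonneg Y)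
  have hy0 : 0 < y := by linarith
  set l := Real.log y with hl
  have hlY : Real.log Y = 2 * l := by
    rw [← hyY, Real.log_mul hy0.ne' hy0.ne']
    ring
  set z := ⌊c * y⌋₊ with hz
  have hcy : 0 ≤ c * y := by positivity
  have z1 : (z : ℝ) ≤ c * y := Nat.floor_le hcy
  have z2 : c * y < z + 1 := Nat.lt_floor_add_one _
  have z3 : 2 ≤ z := Nat.le_floor (by exact_mod_cast a4)
  have z4 : Real.sqrt y ≤ z := by linarith
  have hsq0 : 0 < Real.sqrt y := Real.sqrt_pos.2 hy0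
  have z5 : l / 2 ≤ Real.log z := by
    rw [hl, ← Real.log_sqrt hy0.le]
    exact Real.log_le_log hsq0 z4
  have z6 : l / 2 ≤ Real.log (c * y) := by
    rw [hl, ← Real.log_sqrt hy0.le]
    exact Real.log_le_log hsq0 (by linarith)
  have hl4 := log_four_le
  have hl40 : 0 ≤ Real.log 4 := Real.log_nonneg (by norm_num)
  set lam : ℝ := ε / 500 * (y / l) + M * (1 + 2 * l) with hlam
  have hl0 : 0 < l := by linarith
  have hM0 : (0 : ℝ) ≤ M := Nat.cast_nonneg M
  have hlam0 : 0 ≤ lam := by positivity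
  -- the exponent `r`
  obtain ⟨r, hr1, hr2, hr3⟩ : ∃ r : ℕ, ¬ Even r ∧ 21 * lam + 2 ≤ r ∧ (r : ℝ) ≤ 21 * lam + 4 := by
    have h1 := Nat.le_ceil (21 * lam + 2)
    have h2 := Nat.ceil_lt_add_one (show 0 ≤ 21 * lam + 2 by positivity)
    by_cases h3 : Even ⌈21 * lam + 2⌉₊
    · refine ⟨⌈21 * lam + 2⌉₊ + 1, ?_, ?_, ?_⟩
      · rw [Nat.even_add_one, not_not]
        exact h3
      · push_cast
        linarith
      · push_cast
        linarith
    · exact ⟨⌈21 * lam + 2⌉₊, h3, h1, by linarith⟩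
  set W : ℝ := 1 + ((Y : ℝ) + 1) ^ 2 with hW
  have hW1 : 1 ≤ W := by
    have : 0 ≤ ((Y : ℝ) + 1) ^ 2 := by positivity
    linarith
  set B : ℝ := Real.exp (2 * lam) * W ^ r with hB
  have hB1 : 1 ≤ B := by
    have h1 : 1 ≤ Real.exp (2 * lam) := Real.one_le_exp (by positivity)
    have h2 : 1 ≤ W ^ r := one_le_pow₀ hW1
    calc (1 : ℝ) = 1 * 1 := by ring
      _ ≤ B := mul_le_mul h1 h2 (by norm_num) (by positivity)
  set J : ℕ := ⌊2 * B⌋₊ + 1 with hJ
  have hJ1 : 2 * B < J := by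
    rw [hJ]
    push_cast
    exact Nat.lt_floor_add_one _
  have hJ2 : (J : ℝ) ≤ 3 * B := by
    have h1 : ((⌊2 * B⌋₊ : ℕ) : ℝ) ≤ 2 * B := Nat.floor_le (by linarith)
    rw [hJ]
    push_cast
    linarith
  have hYr : (Y : ℝ) = y ^ 2 := by rw [← hyY]; ring
  have hzY : z ≤ Y := by
    have h1 : (z : ℝ) ≤ Y := by
      rw [← hyY]
      nlinarith
    exact_mod_cast h1
  refine ⟨z, J, by omega, ?_, fun E hE => ?_⟩
  · -- the size of `N J`
    have hN0 : (0 : ℝ) < NN z Y := by exact_mod_cast NN_pos z Y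
    have hJ0 : (0 : ℝ) < J := by linarith
    rw [Real.log_mul hN0.ne' hJ0.ne']
    have hYne : Y ≠ 0 := by
      intro h0
      rw [h0] at hzY
      omega
    have n1 : Real.log (NN z Y) ≤ Nat.primeCounting z * Real.log Y := by
      rw [← Real.log_pow]
      exact Real.log_le_log hN0 (by exact_mod_cast NN_le z Y hYne)
    have n2 : (Nat.primeCounting z : ℝ) ≤ 4 * (c * y) / l := by
      refine a7.trans ?_
      calc 2 * (c * y) / Real.log (c * y) ≤ 2 * (c * y) / (l / 2) := by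
            gcongr
        _ = 4 * (c * y) / l := by
            field_simp
            ring
    have n3 : Real.log (NN z Y) ≤ ε / 4 * y := by
      refine n1.trans ?_
      rw [hlY]
      calc (Nat.primeCounting z : ℝ) * (2 * l) ≤ 4 * (c * y) / l * (2 * l) :=
            mul_le_mul_of_nonneg_right n2 (by positivity)
        _ = 8 * c * y := by
            field_simp
            ring
        _ = ε / 4 * y := by
            rw [hc]
            ring
    have hB0 : 0 < B := by linarith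
    have j1 : Real.log J ≤ Real.log 3 + (2 * lam + r * Real.log W) := by
      have h1 : Real.log B = 2 * lam + r * Real.log W := by
        rw [hB, Real.log_mul (Real.exp_pos _).ne' (by positivity), Real.log_exp, Real.log_pow]
      rw [← h1, ← Real.log_mul (by norm_num) hB0.ne']
      exact Real.log_le_log hJ0 hJ2
    have j2 : Real.log W ≤ 6 * l := by
      have h1 : W ≤ y ^ 6 := by
        have e1 : W = 1 + (y ^ 2 + 1) ^ 2 := by rw [hW, hYr]
        have e2 : 9 ≤ y ^ 2 := by nlinarith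
        rw [e1]
        have e3 : y ^ 6 = (y ^ 2) ^ 3 := by ring
        rw [e3]
        nlinarith [sq_nonneg (y ^ 2), mul_nonneg (sq_nonneg (y ^ 2)) (by linarith : 0 ≤ y ^ 2 - 9)]
      calc Real.log W ≤ Real.log (y ^ 6) := Real.log_le_log (by linarith) h1
        _ = 6 * l := by
            rw [Real.log_pow, ← hl]
            norm_num
    have j3 : Real.log J ≤ Real.log 3 + 24 * l + 128 * (lam * l) := by
      have h1 : (r : ℝ) * Real.log W ≤ (21 * lam + 4) * (6 * l) :=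
        mul_le_mul hr3 j2 (Real.log_nonneg hW1) (by positivity)
      have h2 : lam ≤ lam * l := by nlinarith
      nlinarith
    have j4 : 128 * (lam * l) = 128 / 500 * ε * y + 128 * M * (1 + 2 * l) * l := by
      rw [hlam]
      field_simp
    have h9 : 0 ≤ ε * y := by positivity
    calc Real.log (NN z Y) + Real.log J ≤ ε / 4 * y + (Real.log 3 + 24 * l + 128 * (lam * l)) :=
          add_le_add n3 j3
      _ = ε / 4 * y + 128 / 500 * ε * y +
          (Real.log 3 + 24 * l + 128 * M * (1 + 2 * l) * l) := by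
          rw [j4]
          ring
      _ ≤ ε * y := by linarith
  · -- the sieve
    refine sieve_app (ρ := ρ) (lam := lam) z3 hzY hM ?_ hMt hρ0.le ?_ ?_ hr1 hr2 ?_ E hE
    · have h1 : 4 * (M : ℝ) < ((z + 1 : ℕ) : ℝ) := by
        push_cast
        linarith
      have h2 : ((4 * M : ℕ) : ℝ) < ((z + 1 : ℕ) : ℝ) := by
        push_cast at h1 ⊢
        exact h1
      exact (Nat.cast_lt.1 h2).le
    · have h1 : (c * y) ^ 2 ≤ ((z : ℝ) + 1) ^ 2 := pow_le_pow_left₀ hcy z2.le 2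
      have h2 : ρ * Y ≤ (c * y) ^ 2 / 4 := by
        rw [hYr, hρ]
        have h3 : ε * c / 3000 ≤ c ^ 2 / 4 := by
          have h4 : ε = 32 * c := by
            rw [hc]
            ring
          rw [h4]
          nlinarith [sq_nonneg c]
        calc ε * c / 3000 * y ^ 2 ≤ c ^ 2 / 4 * y ^ 2 :=
              mul_le_mul_of_nonneg_right h3 (sq_nonneg y)
          _ = (c * y) ^ 2 / 4 := by ring
      linarith
    · rw [hlY, hlam]
      refine add_le_add ?_ le_rfl
      have h1 : 0 < c * y * (l / 2) := by positivity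
      have h2 : c * y * (l / 2) ≤ ((z : ℝ) + 1) * Real.log z :=
        mul_le_mul z2.le z5 (by positivity) (by positivity)
      calc ρ * Y * (2 * Real.log 4 / (((z : ℝ) + 1) * Real.log z))
          ≤ ρ * Y * (3 / (c * y * (l / 2))) := by
            refine mul_le_mul_of_nonneg_left ?_ (by positivity)
            exact div_le_div₀ (by norm_num) (by linarith) h1 h2
        _ = ε / 500 * (y / l) := by
            rw [hρ, hYr]
            field_simp
            ring
    · rw [← hW]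
      calc 2 * Real.exp (2 * lam) * W ^ r = 2 * B := by
            rw [hB]
            ring
        _ < J := hJ1

end Pool.Agent.Helper95.FC
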