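import Mathlib

set_option autoImplicit false

/-!
# Truncated inclusion and exclusion

`E q` is a set of forbidden residues modulo `q`.
-/

namespace Pool.Agent.Helper95.FC

open Finset

/-- The integers below `J` in the class `c` modulo `D` which avoid the forbidden residues. -/
def good (E : ℕ → Finset ℕ) (J : ℕ) (Q : List ℕ) (D c : ℕ) : Finset ℕ :=
  (range J).filter (fun j => j ≡ c [MOD D] ∧ ∀ q ∈ Q, j % q ∉ E q)

/-- Truncated product `∏ (1 - x q)`. -/
noncomputable def TT (x : ℕ → ℝ) : ℕ → List ℕ → ℝ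
  | 0, _ => 1
  | _ + 1, [] => 1
  | r + 1, q :: Q => TT x (r + 1) Q - x q * TT x r Q

/-- The error term. -/
noncomputable def RR (w : ℕ → ℝ) : ℕ → List ℕ → ℝ
  | 0, _ => 1
  | _ + 1, [] => 1
  | r + 1, q :: Q => RR w (r + 1) Q + w q * RR w r Q

theorem TT_nil (x : ℕ → ℝ) (r : ℕ) : TT x r [] = 1 := by
  cases r <;> simp [TT]

theorem RR_nil (w : ℕ → ℝ) (r : ℕ) : RR w r [] = 1 := by
  cases r <;> simp [RR]

theorem count_class (J D c : ℕ) (hD : 0 < D) :
    (((range J).filter (fun j => j ≡ c [MOD D])).card : ℝ) ≤ J / D + 1 ∧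
      (J : ℝ) / D - 1 ≤ ((range J).filter (fun j => j ≡ c [MOD D])).card := by
  have h1 : (((range J).filter (fun j => j ≡ c [MOD D])).card : ℤ) =
      ⌈((J : ℚ) - (c % D : ℕ)) / (D : ℚ)⌉ := by
    rw [← Nat.count_eq_card_filter_range]
    exact Nat.count_modEq_card_eq_ceil J hD c
  have hDq : (0 : ℚ) < D := by exact_mod_cast hD
  have hc : ((c % D : ℕ) : ℚ) < D := by exact_mod_cast Nat.mod_lt c hD
  have hc0 : (0 : ℚ) ≤ ((c % D : ℕ) : ℚ) := Nat.cast_nonneg _
  have h2 := Int.ceil_lt_add_one (((J : ℚ) - (c % D : ℕ)) / (D : ℚ))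
  have h3 := Int.le_ceil (((J : ℚ) - (c % D : ℕ)) / (D : ℚ))
  rw [← h1] at h2 h3
  have h4 : ((J : ℚ) - (c % D : ℕ)) / (D : ℚ) ≤ J / D := by
    apply div_le_div_of_nonneg_right _ hDq.le
    linarith
  have h5 : (J : ℚ) / D - 1 ≤ ((J : ℚ) - (c % D : ℕ)) / (D : ℚ) := by
    rw [le_div_iff₀ hDq, sub_mul, div_mul_cancel₀ _ hDq.ne']
    linarith
  constructor
  · have h6 : (((range J).filter (fun j => j ≡ c [MOD D])).card : ℚ) ≤ J / D + 1 := by
      push_cast at h2
      linarith
    have h7 := (Rat.cast_le (K := ℝ)).2 h6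
    push_cast at h7
    exact h7
  · have h6 : (J : ℚ) / D - 1 ≤ ((range J).filter (fun j => j ≡ c [MOD D])).card := by
      push_cast at h3
      linarith
    have h7 := (Rat.cast_le (K := ℝ)).2 h6
    push_cast at h7
    exact h7

/-- The recursion. -/
theorem good_cons (E : ℕ → Finset ℕ) (J : ℕ) (q : ℕ) (Q : List ℕ) (D c : ℕ)
    (hqD : D.Coprime q) (hE : ∀ e ∈ E q, e < q) :
    ∃ f : ℕ → ℕ, ((good E J (q :: Q) D c).card : ℝ) = (good E J Q D c).card -
      ∑ e ∈ E q, ((good E J Q (D * q) (f e)).card : ℝ) := by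
  refine ⟨fun e => (Nat.chineseRemainder hqD c e : ℕ), ?_⟩
  have h1 : ∀ e ∈ E q, good E J Q (D * q) (Nat.chineseRemainder hqD c e : ℕ) =
      (good E J Q D c).filter (fun j => j % q = e) := by
    intro e he
    ext j
    simp only [good, mem_filter, mem_range]
    have h2 := (Nat.chineseRemainder hqD c e).2
    have h3 : j ≡ (Nat.chineseRemainder hqD c e : ℕ) [MOD D * q] ↔
        (j ≡ c [MOD D] ∧ j % q = e) := by
      rw [← Nat.modEq_and_modEq_iff_modEq_mul hqD]
      constructor
      · rintro ⟨h4, h5⟩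
        refine ⟨h4.trans h2.1, ?_⟩
        have h6 : j % q = e % q := h5.trans h2.2
        rw [h6, Nat.mod_eq_of_lt (hE e he)]
      · rintro ⟨h4, h5⟩
        refine ⟨h4.trans h2.1.symm, ?_⟩
        have h6 : j ≡ e [MOD q] := by
          unfold Nat.ModEq
          rw [h5, Nat.mod_eq_of_lt (hE e he)]
        exact h6.trans h2.2.symm
    rw [h3]
    tauto
  have h2 : (∑ e ∈ E q, (good E J Q (D * q) (Nat.chineseRemainder hqD c e : ℕ)).card) =
      ((good E J Q D c).filter (fun j => j % q ∈ E q)).card := by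
    rw [sum_congr rfl (fun e he => by rw [h1 e he])]
    rw [card_eq_sum_card_fiberwise (f := fun j => j % q) (t := E q)]
    · refine sum_congr rfl fun e he => ?_
      rw [filter_filter]
      congr 1
      ext j
      simp only [mem_filter]
      constructor
      · rintro ⟨h3, h4⟩
        exact ⟨h3, by rw [h4]; exact he, h4⟩
      · rintro ⟨h3, -, h4⟩
        exact ⟨h3, h4⟩
    · intro j hj
      exact (mem_filter.1 hj).2
  have h3 : good E J (q :: Q) D c = (good E J Q D c).filter (fun j => ¬ j % q ∈ E q) := by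
    ext j
    simp only [good, mem_filter, mem_range, List.mem_cons, forall_eq_or_imp]
    tauto
  have h4 := card_filter_add_card_filter_not (s := good E J Q D c) (fun j => j % q ∈ E q)
  rw [← h3, ← h2] at h4
  have h5 : ((good E J (q :: Q) D c).card : ℝ) =
      (good E J Q D c).card -
      ((∑ e ∈ E q, (good E J Q (D * q) (Nat.chineseRemainder hqD c e : ℕ)).card : ℕ) : ℝ) := by
    rw [← h4]
    push_cast
    ring
  rw [h5]
  push_cast
  rfl

/-- Bonferroni's inequalities for the number of good integers. -/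
theorem bonf (E : ℕ → Finset ℕ) (J : ℕ) :
    ∀ (Q : List ℕ) (r D c : ℕ), 0 < D → (∀ q ∈ Q, 0 < q ∧ D.Coprime q ∧ ∀ e ∈ E q, e < q) →
      Q.Pairwise Nat.Coprime →
      (Even r → ((good E J Q D c).card : ℝ) ≤
        (J : ℝ) / D * TT (fun q => ((E q).card : ℝ) / q) r Q + RR (fun q => (E q).card) r Q) ∧
      (¬ Even r → (J : ℝ) / D * TT (fun q => ((E q).card : ℝ) / q) r Q -
        RR (fun q => (E q).card) r Q ≤ (good E J Q D c).card) := by
  intro Q
  induction Q with
  | nil =>
    intro r D c hD _ _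
    have h1 := count_class J D c hD
    have h2 : good E J [] D c = (range J).filter (fun j => j ≡ c [MOD D]) := by
      ext j
      simp [good]
    rw [h2, TT_nil, RR_nil, mul_one]
    exact ⟨fun _ => h1.1, fun _ => h1.2⟩
  | cons q Q ih =>
    intro r D c hD hQ hP
    obtain ⟨hq0, hqD, hqE⟩ := hQ q List.mem_cons_self
    have hQ' : ∀ q' ∈ Q, 0 < q' ∧ D.Coprime q' ∧ ∀ e ∈ E q', e < q' :=
      fun q' h => hQ q' (List.mem_cons_of_mem _ h)
    rw [List.pairwise_cons] at hP
    have hQ'' : ∀ q' ∈ Q, 0 < q' ∧ (D * q).Coprime q' ∧ ∀ e ∈ E q', e < q' :=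
      fun q' h => ⟨(hQ' q' h).1, Nat.Coprime.mul_left (hQ' q' h).2.1 (hP.1 q' h), (hQ' q' h).2.2⟩
    cases r with
    | zero =>
      refine ⟨fun _ => ?_, fun h => absurd (by decide) h⟩
      have h1 := count_class J D c hD
      have h2 : (good E J (q :: Q) D c).card ≤
          ((range J).filter (fun j => j ≡ c [MOD D])).card := by
        refine card_le_card fun j hj => ?_
        simp only [good, mem_filter] at hj ⊢
        exact ⟨hj.1, hj.2.1⟩
      have h3 : ((good E J (q :: Q) D c).card : ℝ) ≤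
          ((range J).filter (fun j => j ≡ c [MOD D])).card := by exact_mod_cast h2
      simp only [TT, RR, mul_one]
      linarith [h1.1]
    | succ r =>
      obtain ⟨f, hf⟩ := good_cons E J q Q D c hqD hqE
      have hDq : 0 < D * q := Nat.mul_pos hD hq0
      have hDr : (D : ℝ) ≠ 0 := by exact_mod_cast hD.ne'
      have hqr : (q : ℝ) ≠ 0 := by exact_mod_cast hq0.ne'
      have i1 := ih (r + 1) D c hD hQ' hP.2
      have i2 := fun e => ih r (D * q) (f e) hDq hQ'' hP.2
      rw [hf]
      simp only [TT, RR]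
      constructor
      · intro hr
        have hr' : ¬ Even r := by
          intro h
          exact (Nat.even_add_one.1 hr) h
        have j1 := i1.1 hr
        have j2 : ∑ e ∈ E q, ((J : ℝ) / (D * q : ℕ) * TT (fun q => ((E q).card : ℝ) / q) r Q -
            RR (fun q => (E q).card) r Q) ≤ ∑ e ∈ E q, ((good E J Q (D * q) (f e)).card : ℝ) :=
          sum_le_sum fun e _ => (i2 e).2 hr'
        rw [sum_const, nsmul_eq_mul] at j2
        have j3 : (J : ℝ) / (D * q : ℕ) = J / D / q := by
          push_cast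
          rw [div_div]
        rw [j3] at j2
        have j4 : (J : ℝ) / D * (TT (fun q => ((E q).card : ℝ) / q) (r + 1) Q -
            ((E q).card : ℝ) / q * TT (fun q => ((E q).card : ℝ) / q) r Q) =
            (J : ℝ) / D * TT (fun q => ((E q).card : ℝ) / q) (r + 1) Q -
            (E q).card * (J / D / q * TT (fun q => ((E q).card : ℝ) / q) r Q) := by
          field_simp
        rw [j4]
        linarith
      · intro hr
        have hr' : Even r := by
          by_contra h
          exact hr (Nat.even_add_one.2 h)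
        have j1 := i1.2 hr
        have j2 : ∑ e ∈ E q, ((good E J Q (D * q) (f e)).card : ℝ) ≤
            ∑ e ∈ E q, ((J : ℝ) / (D * q : ℕ) * TT (fun q => ((E q).card : ℝ) / q) r Q +
            RR (fun q => (E q).card) r Q) :=
          sum_le_sum fun e _ => (i2 e).1 hr'
        rw [sum_const, nsmul_eq_mul] at j2
        have j3 : (J : ℝ) / (D * q : ℕ) = J / D / q := by
          push_cast
          rw [div_div]
        rw [j3] at j2
        have j4 : (J : ℝ) / D * (TT (fun q => ((E q).card : ℝ) / q) (r + 1) Q -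
            ((E q).card : ℝ) / q * TT (fun q => ((E q).card : ℝ) / q) r Q) =
            (J : ℝ) / D * TT (fun q => ((E q).card : ℝ) / q) (r + 1) Q -
            (E q).card * (J / D / q * TT (fun q => ((E q).card : ℝ) / q) r Q) := by
          field_simp
        rw [j4]
        linarith

end Pool.Agent.Helper95.FC
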